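import Pool.Agent.Helper68.DG.Base

/-!
# Project DGL (MP_800410_an, De Giorgi): frames

Monotone solutions are close to one-dimensional ones at most places of a subspace of codimension
three.  Every `S_..` is the statement of a piece.  A piece file proves `theorem s_.. : S_..`.

Notation: `V ι` Euclidean space with coordinates in `ι`; `p : ι → Prop` the coordinates of the
subspace (called `F` in the final statement), `¬ p i` the other ones (at most three).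
-/

set_option autoImplicit false

open MeasureTheory Metric Set Filter Topology
open scoped ContDiff

namespace Pool.Agent.Helper70.DGL

open Pool.Agent.Helper68.DG

/-- the translate -/
def tr {ι : Type} [Fintype ι] (v : V ι) (u : V ι → ℝ) : V ι → ℝ := fun x => u (x + v)

/-- `u` is `δ`-close to a one-dimensional solution on the ball of radius `r` about `0` -/
def Close {ι : Type} [Fintype ι] (K r δ : ℝ) (u : V ι → ℝ) : Prop :=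
  ∃ g : V ι → ℝ, GS K g ∧ AM g ∧
    ∀ x, ‖x‖ ≤ r → |u x - g x| ≤ δ ∧ ‖fderiv ℝ u x - fderiv ℝ g x‖ ≤ δ

/-- test functions of size at most `N`, supported in the ball of radius `N` -/
def TN {ι : Type} [Fintype ι] (N : ℕ) (ψ : V ι → ℝ) : Prop :=
  ContDiff ℝ 2 ψ ∧ (∀ x, (N : ℝ) ≤ ‖x‖ → ψ x = 0) ∧ (∀ x, |ψ x| ≤ N) ∧ ∀ x, ‖fderiv ℝ ψ x‖ ≤ N

/-- the defect of the positive part of the derivative in the direction `b` -/
noncomputable def AA {ι : Type} [Fintype ι] (b : V ι) (ψ u : V ι → ℝ) : ℝ :=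
  ∫ x, max (fderiv ℝ u x b) 0 * (lap ψ x + cc u x * ψ x)

/-- a dense sequence of directions -/
noncomputable def dir (ι : Type) [Fintype ι] (i : ℕ) : V ι := TopologicalSpace.denseSeq (V ι) i

/-- small defect -/
def SD {ι : Type} [Fintype ι] (N : ℕ) (u : V ι → ℝ) : Prop :=
  ∀ i < N, ∀ ψ : V ι → ℝ, TN N ψ → |AA (dir ι i) ψ u| ≤ 1 / ((N : ℝ) + 1)

/-- `d`-separated finite sets -/
def Sep {ι : Type} [Fintype ι] (d : ℝ) (S : Finset (V ι)) : Prop :=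
  ∀ x ∈ S, ∀ y ∈ S, x ≠ y → d ≤ ‖x - y‖

/-- `χ` is a cutoff for the ball of radius `R` about `a` -/
def Win {κ : Type} [Fintype κ] (C R : ℝ) (a : V κ) (χ : V κ → ℝ) : Prop :=
  T1 χ ∧ (∀ z, 0 ≤ χ z ∧ χ z ≤ 1) ∧ (∀ z, ‖z - a‖ ≤ R → χ z = 1) ∧
    (∀ z, 2 * R ≤ ‖z - a‖ → χ z = 0) ∧ (∀ z, ‖fderiv ℝ χ z‖ ≤ C / R) ∧
    ∫ z, χ z ≤ C * R ^ Fintype.card κ ∧
    ∫ z, ‖fderiv ℝ χ z‖ ≤ C / R * R ^ Fintype.card κ ∧
    ∫ z, ‖fderiv ℝ χ z‖ ^ 2 ≤ C / R ^ 2 * R ^ Fintype.card κ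

/-! ## Pieces -/

/-- UR: uniform bounds for solutions (the proofs of `reg1`, `reg2`, `exists_GS` of Helper68.DG with
the constants in front) -/
def S_UR : Prop := ∀ (ι : Type) [Fintype ι] (M : ℝ), ∃ K : ℝ, ∀ u : V ι → ℝ, ContDiff ℝ 2 u →
  (∀ x, |u x| ≤ M) → (∀ x, lap u x + u x - u x ^ 3 = 0) → GS K u

/-- TH: thinning -/
def S_TH : Prop := ∀ (κ : Type) [Fintype κ] (D : ℝ), ∃ C : ℝ, 0 < C ∧
  ∀ S : Finset (V κ), Sep 1 S → ∃ S' ⊆ S, Sep D S' ∧ (S.card : ℝ) ≤ C * S'.card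

/-- CH: cutoffs for balls -/
def S_CH : Prop := ∀ (κ : Type) [Fintype κ], ∃ C : ℝ, 0 ≤ C ∧ ∀ R : ℝ, 1 ≤ R → ∀ a : V κ,
  ∃ χ : V κ → ℝ, Win C R a χ

/-- FC: the number of places with a large defect is bounded by the energy of a cutoff -/
def S_FC : Prop := ∀ (ι : Type) [Fintype ι] (K : ℝ) (N : ℕ), ∃ C : ℝ, 0 ≤ C ∧
  ∀ u : V ι → ℝ, GS K u → Stab u → ∀ S : Finset (V ι), Sep (2 * N + 2) S →
    (∀ v ∈ S, ¬ SD N (tr v u)) → ∀ ξ : V ι → ℝ, T1 ξ →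
      (∀ v ∈ S, ∀ x, ‖x - v‖ ≤ N + 1 → ξ x = 1) →
      (S.card : ℝ) ≤ C * ∫ x, gd u u x * gd ξ ξ x

/-- SQ: sequential compactness -/
def S_SQ : Prop := ∀ (ι : Type) [Fintype ι] (K : ℝ) (u : ℕ → V ι → ℝ), (∀ n, GS K (u n)) →
  (∀ n, Stab (u n)) → ∃ φ : ℕ → ℕ, StrictMono φ ∧ ∃ v : V ι → ℝ, GS K v ∧ Stab v ∧
    (∀ x, Tendsto (fun n => u (φ n) x) atTop (𝓝 (v x))) ∧
    ∀ x, Tendsto (fun n => fderiv ℝ (u (φ n)) x) atTop (𝓝 (fderiv ℝ v x))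

/-- CL: small defect implies that `u` is close to a one-dimensional solution -/
def S_CL : Prop := ∀ (ι : Type) [Fintype ι] (K r δ : ℝ), 0 < δ → ∃ N : ℕ,
  ∀ u : V ι → ℝ, GS K u → Stab u → SD N u → Close K r δ u

/-- A: the count for stable solutions, at most two other coordinates -/
def S_A : Prop := ∀ (ι : Type) [Fintype ι] [DecidableEq ι] (p : ι → Prop) [DecidablePred p],
  Fintype.card {i // ¬ p i} ≤ 2 → ∀ K r δ ε : ℝ, 0 < δ → 0 < ε → ∃ R₀ : ℝ, ∀ R : ℝ, R₀ ≤ R →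
    ∀ u : V ι → ℝ, GS K u → Stab u → ∀ (a : V {i // p i}) (S : Finset (V {i // p i})), Sep 1 S →
      (∀ z ∈ S, ‖z - a‖ ≤ R) → (∀ z ∈ S, ¬ Close K r δ (tr (emb p z) u)) →
      (S.card : ℝ) ≤ ε * R ^ Fintype.card {i // p i}

/-- EA: the energy of a one-dimensional solution, with constant `K ^ 2` (`d2_unit`, `EE_of_AM`) -/
def S_EA : Prop := ∀ (ι : Type) [Fintype ι] (K : ℝ) (v : V ι → ℝ), GS K v → AM v →
  ∀ ζ : V ι → ℝ, T1 ζ → (∀ x, 0 ≤ ζ x) → ∫ x, ζ x * en v x ≤ K ^ 2 * ∫ x, ‖fderiv ℝ ζ x‖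

/-- EP: comparison of the energy with the energy of the profile (inside of `EE_of_profile`) -/
def S_EP : Prop := ∀ (ι : Type) [Fintype ι] (K : ℝ) (u v : V ι → ℝ), GS K u → GS K v →
  ∀ e : V ι, (∀ x, 0 ≤ fderiv ℝ u x e) →
    (∀ x, Tendsto (fun t : ℝ => u (x + t • e)) atTop (𝓝 (v x))) →
    (∀ x, Tendsto (fun t : ℝ => fderiv ℝ u (x + t • e)) atTop (𝓝 (fderiv ℝ v x))) →
    ∀ ζ : V ι → ℝ, T1 ζ → (∀ x, 0 ≤ ζ x) →
      ∫ x, ζ x * en u x ≤ (∫ x, ζ x * en v x) + 2 * K ^ 2 * ∫ x, ‖fderiv ℝ ζ x‖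

/-- AE: the average energy of the profile.  `e` is in the span of the coordinates `p` and of `i₀`. -/
def S_AE : Prop := ∀ (ι : Type) [Fintype ι] [DecidableEq ι] (p : ι → Prop) [DecidablePred p]
  (i₀ : ι), ¬ p i₀ → Fintype.card {i // ¬ p i} ≤ 3 → ∀ e : V ι, e i₀ ≠ 0 →
  (∀ i, ¬ p i → i ≠ i₀ → e i = 0) → ∀ K Cχ : ℝ, ∃ C : ℝ, 0 ≤ C ∧
    ∀ W : V {i // ¬ p i} → ℝ, T1 W → (∀ y, 0 ≤ W y) → ∀ ρ : ℝ, 0 < ρ → ∃ R₀ : ℝ, ∀ R : ℝ, R₀ ≤ R →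
      ∀ v : V ι → ℝ, GS K v → Stab v → (∀ x, fderiv ℝ v x e = 0) →
      ∀ (a : V {i // p i}) (χ : V {i // p i} → ℝ), Win Cχ R a χ →
        ∫ x, χ (prj p x) * W (prj (fun i => ¬ p i) x) * en v x ≤
          C * R ^ Fintype.card {i // p i} * ((∫ y, ‖fderiv ℝ W y‖) + ρ)

/-- B: the count for monotone solutions, at most three other coordinates -/
def S_B : Prop := ∀ (ι : Type) [Fintype ι] [DecidableEq ι] (p : ι → Prop) [DecidablePred p]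
  (i₀ : ι), ¬ p i₀ → Fintype.card {i // ¬ p i} ≤ 3 → ∀ e : V ι, e i₀ ≠ 0 →
  (∀ i, ¬ p i → i ≠ i₀ → e i = 0) → ∀ K r δ ε : ℝ, 0 < δ → 0 < ε → ∃ R₀ : ℝ, ∀ R : ℝ, R₀ ≤ R →
    ∀ u : V ι → ℝ, GS K u → (∀ x, 0 < fderiv ℝ u x e) →
      ∀ (a : V {i // p i}) (S : Finset (V {i // p i})), Sep 1 S →
      (∀ z ∈ S, ‖z - a‖ ≤ R) → (∀ z ∈ S, ¬ Close K r δ (tr (emb p z) u)) →
      (S.card : ℝ) ≤ ε * R ^ Fintype.card {i // p i}

/-- BD: bounded solutions are bounded by one (a limit of translates attains its supremum; SQ has a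
hypothesis `Stab`, which may be assumed here) -/
def S_BD : Prop := ∀ (ι : Type) [Fintype ι] (K : ℝ) (u : V ι → ℝ), GS K u → Stab u →
  ∀ x, |u x| ≤ 1

/-- TA: explicit form of the one-dimensional solutions, up to `δ` on balls (the constants `1`, `-1`
are limits of translates of the transition) -/
def S_TA : Prop := ∀ (ι : Type) [Fintype ι] [Nonempty ι] (K r δ : ℝ) (g : V ι → ℝ), GS K g → AM g →
  0 < δ → ∃ (a : V ι) (c : ℝ), ‖a‖ = 1 ∧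
    ∀ x, ‖x‖ ≤ r → |g x - Real.tanh ((inner ℝ a x - c) / √2)| ≤ δ

/-- NP: `u` is `δ`-close on the ball of radius `r` about `v` to a planar transition -/
def NP {ι : Type} [Fintype ι] (r δ : ℝ) (u : V ι → ℝ) (v : V ι) : Prop :=
  ∃ (a : V ι) (c : ℝ), ‖a‖ = 1 ∧
    ∀ x, ‖x - v‖ ≤ r → |u x - Real.tanh ((inner ℝ a x - c) / √2)| ≤ δ

/-- bounded solutions -/
def Sol {ι : Type} [Fintype ι] (u : V ι → ℝ) : Prop :=
  ContDiff ℝ 2 u ∧ (∃ M : ℝ, ∀ x, |u x| ≤ M) ∧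
    ∀ x, Laplacian.laplacian u x + u x - u x ^ 3 = 0

/-- FI: the count in a general subspace, uniform in the solution -/
def S_FI : Prop := ∀ (n : ℕ) (F : Submodule ℝ (V (Fin n))), n ≤ Module.finrank ℝ F + 3 →
  ∀ e : V (Fin n), e ∉ F → ∀ r δ ε : ℝ, 0 < δ → 0 < ε → ∃ R₀ : ℝ, ∀ R : ℝ, R₀ ≤ R →
    ∀ u : V (Fin n) → ℝ, Sol u → (∀ x, 0 < fderiv ℝ u x e) →
      ∀ (x₀ : V (Fin n)) (S : Finset (V (Fin n))),
        (∀ v ∈ S, ∀ w ∈ S, v ≠ w → 1 ≤ ‖v - w‖) →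
        (∀ v ∈ S, v - x₀ ∈ F ∧ ‖v - x₀‖ ≤ R) → (∀ v ∈ S, ¬ NP r δ u v) →
        (S.card : ℝ) ≤ ε * R ^ Module.finrank ℝ F

/-- LI: a monotone function which is close to planar transitions on all balls is one -/
def S_LI : Prop := ∀ (ι : Type) [Fintype ι] (u : V ι → ℝ) (e : V ι), Differentiable ℝ u →
  (∀ x, 0 < fderiv ℝ u x e) → (∀ r δ : ℝ, 0 < δ → NP r δ u 0) →
  ∃ (a : V ι) (c : ℝ), ‖a‖ = 1 ∧ ∀ x, u x = Real.tanh ((inner ℝ a x - c) / √2)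

end Pool.Agent.Helper70.DGL
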