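import Pool.Agent.Helper70.DGL.CT
import Pool.Agent.Helper68.DG.A4
import Pool.Agent.Helper68.DG.GE

/-! Project DGL, piece B: the count in codimension three -/

set_option autoImplicit false

open MeasureTheory Metric Set Filter Topology
open scoped ContDiff

namespace Pool.Agent.Helper70.DGL

open Pool.Agent.Helper68.DG

/-- a test function above the energy of the cutoff `cut T`, in dimension three -/
theorem b_wcut (κ : Type) [Fintype κ] (hn : Fintype.card κ = 3) :
    ∃ c : ℝ, 0 ≤ c ∧ ∀ T : ℝ, 2 ≤ T → T1 (cut T : V κ → ℝ) ∧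
      (∀ x : V κ, lg x ≤ T → cut T x = 1) ∧ ∃ W : V κ → ℝ, T1 W ∧ (∀ y, 0 ≤ W y) ∧
      (∀ y, gd (cut T) (cut T) y ≤ W y) ∧ ∫ y, ‖fderiv ℝ W y‖ ≤ c / T := by
  obtain ⟨Cc, hCc0, hCc⟩ := cut_facts (ι := κ)
  obtain ⟨Cs, hCs0, hCs⟩ := exists_shell_cut (ι := κ) 2 (by norm_num) ∅
  obtain ⟨Cv, hCv0, hCv⟩ := shell_vol (ι := κ)
  refine ⟨Cc ^ 2 * (Cs * Cv * (7 / 2)), by positivity, fun T hT2 => ?_⟩
  have hT0 : 0 < T := by linarith
  obtain ⟨c1, c2, c3, c4, c5, c6⟩ := hCc T (by linarith)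
  obtain ⟨ζ, z1, z2, z3, z4, z5⟩ := hCs T 1 hT2 one_pos le_rfl
  refine ⟨c1, c3, fun y => (Cc / T) ^ 2 * ζ y, z1.const_mul _,
    fun y => mul_nonneg (by positivity) (z2 y), fun y => ?_, ?_⟩
  · rw [gd_self]
    by_cases hy : y ∈ shell T 1 (∅ : Finset κ)
    · calc ‖fderiv ℝ (cut T) y‖ ^ 2 ≤ (Cc / T * Real.exp (-lg y)) ^ 2 :=
            pow_le_pow_left₀ (norm_nonneg _) (c5 y) 2
        _ = (Cc / T) ^ 2 * Real.exp (-2 * lg y) := by
            rw [mul_pow, ← Real.exp_nat_mul]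
            congr 2
            push_cast
            ring
        _ ≤ (Cc / T) ^ 2 * ζ y := mul_le_mul_of_nonneg_left (z3 y hy) (by positivity)
    · rw [c6 y hy, norm_zero, zero_pow two_ne_zero]
      exact mul_nonneg (by positivity) (z2 y)
  · have e1 : ∀ y, ‖fderiv ℝ (fun y => (Cc / T) ^ 2 * ζ y) y‖ =
        (Cc / T) ^ 2 * ‖fderiv ℝ ζ y‖ := by
      intro y
      rw [fderiv_const_mul (z1.1.differentiable one_ne_zero y), norm_smul, Real.norm_eq_abs,
        abs_of_nonneg (by positivity)]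
    rw [integral_congr_ae (Eventually.of_forall e1), integral_const_mul]
    have h2 : ∫ y, ‖fderiv ℝ ζ y‖ ≤ Cs * Cv * (7 / 2 * T) := by
      apply ge_shell_int hn hCs0 hT2 hCv z1
      · intro x
        have := z4 x
        rw [div_one] at this
        refine this.trans (le_of_eq ?_)
        norm_num
      · intro x hx
        apply z5 x
        rw [mul_one]
        exact hx
    calc (Cc / T) ^ 2 * ∫ y, ‖fderiv ℝ ζ y‖ ≤ (Cc / T) ^ 2 * (Cs * Cv * (7 / 2 * T)) :=
          mul_le_mul_of_nonneg_left h2 (by positivity)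
      _ = Cc ^ 2 * (Cs * Cv * (7 / 2)) / T := by
          field_simp

/-- the energy of a product of cutoffs -/
theorem b_cyl {ι : Type} [Fintype ι] (p : ι → Prop) [DecidablePred p] {K : ℝ} {u : V ι → ℝ}
    (hu : GS K u) {χ : V {i // p i} → ℝ} {η W : V {i // ¬ p i} → ℝ} (hχ : T1 χ)
    (h01 : ∀ z, 0 ≤ χ z ∧ χ z ≤ 1) (hη : T1 η) (hW : T1 W) (hηW : ∀ y, gd η η y ≤ W y) :
    ∫ x, gd u u x * gd (fun x => χ (prj p x) * η (prj (fun i => ¬ p i) x))
        (fun x => χ (prj p x) * η (prj (fun i => ¬ p i) x)) x ≤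
      K ^ 2 * ((∫ z, ‖fderiv ℝ χ z‖ ^ 2) * ∫ y, η y ^ 2) +
        2 * ∫ x, χ (prj p x) * W (prj (fun i => ¬ p i) x) * en u x := by
  have hu1 : Continuous (gd u u) := continuous_gd hu.C1 hu.C1
  have hgb : ∀ x, gd u u x ≤ K ^ 2 := by
    intro x
    rw [gd_self]
    exact pow_le_pow_left₀ (norm_nonneg _) (hu.bdd1 x) 2
  have hen : Continuous (en u) := continuous_en hu.C1
  have hcsq : Continuous fun z => χ z ^ 2 := hχ.continuous.pow 2
  have hcsq' : HasCompactSupport fun z => χ z ^ 2 :=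
    hχ.2.comp_left (g := fun t : ℝ => t ^ 2) (by norm_num)
  have hesq : Continuous fun y => η y ^ 2 := hη.continuous.pow 2
  have hesq' : HasCompactSupport fun y => η y ^ 2 :=
    hη.2.comp_left (g := fun t : ℝ => t ^ 2) (by norm_num)
  have hI1 : Integrable fun x : V ι => gd χ χ (prj p x) * η (prj (fun i => ¬ p i) x) ^ 2 :=
    a6b_int p (f := gd χ χ) (g := fun z => η z ^ 2) (continuous_gd hχ.1 hχ.1) hesq
      (hasCompactSupport_gd hχ.2) hesq'
  have hJ1 : Integrable fun x : V ι => gd u u x *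
      (gd χ χ (prj p x) * η (prj (fun i => ¬ p i) x) ^ 2) := by
    apply integrable_cs
    · exact hu1.mul (((continuous_gd hχ.1 hχ.1).comp (prj p).continuous).mul
        (hesq.comp (prj (fun i => ¬ p i)).continuous))
    · exact (a6b_cs p (f := gd χ χ) (g := fun z => η z ^ 2)
        (hasCompactSupport_gd hχ.2) hesq').mul_left
  have hJ2 : Integrable fun x : V ι => gd u u x *
      (χ (prj p x) ^ 2 * gd η η (prj (fun i => ¬ p i) x)) := by
    apply integrable_cs
    · exact hu1.mul ((hcsq.comp (prj p).continuous).mul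
        ((continuous_gd hη.1 hη.1).comp (prj (fun i => ¬ p i)).continuous))
    · exact (a6b_cs p (f := fun y => χ y ^ 2) (g := gd η η) hcsq'
        (hasCompactSupport_gd hη.2)).mul_left
  have hE : Integrable fun x : V ι =>
      (χ (prj p x) * W (prj (fun i => ¬ p i) x)) * en u x :=
    integrable_cs ((t1_prod p hχ hW).continuous.mul hen) (t1_prod p hχ hW).2.mul_right
  have hsplit : ∫ x, gd u u x * gd (fun x => χ (prj p x) * η (prj (fun i => ¬ p i) x))
      (fun x => χ (prj p x) * η (prj (fun i => ¬ p i) x)) x =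
      (∫ x, gd u u x * (gd χ χ (prj p x) * η (prj (fun i => ¬ p i) x) ^ 2)) +
      ∫ x, gd u u x * (χ (prj p x) ^ 2 * gd η η (prj (fun i => ¬ p i) x)) := by
    rw [← integral_add hJ1 hJ2]
    apply integral_congr_ae
    refine Eventually.of_forall fun x => ?_
    simp only
    rw [a6b_gd p hχ.1 hη.1 x]
    ring
  rw [hsplit]
  apply add_le_add
  · calc ∫ x, gd u u x * (gd χ χ (prj p x) * η (prj (fun i => ¬ p i) x) ^ 2)
        ≤ ∫ x, K ^ 2 * (gd χ χ (prj p x) * η (prj (fun i => ¬ p i) x) ^ 2) := by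
          apply integral_mono hJ1 (hI1.const_mul _)
          intro x
          apply mul_le_mul_of_nonneg_right (hgb x)
          exact mul_nonneg (gd_self_nonneg _ _) (by positivity)
      _ = K ^ 2 * ((∫ z, ‖fderiv ℝ χ z‖ ^ 2) * ∫ y, η y ^ 2) := by
          rw [integral_const_mul, integral_split p (gd χ χ) (fun y => η y ^ 2)]
          simp only [gd_self]
  · calc ∫ x, gd u u x * (χ (prj p x) ^ 2 * gd η η (prj (fun i => ¬ p i) x))
        ≤ ∫ x, 2 * ((χ (prj p x) * W (prj (fun i => ¬ p i) x)) * en u x) := by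
          apply integral_mono hJ2 (hE.const_mul _)
          intro x
          simp only
          have a1 := gd_le_en u x
          have a2 := hηW (prj (fun i => ¬ p i) x)
          have a3 := (h01 (prj p x)).1
          have a4 := (h01 (prj p x)).2
          have a5 := gd_self_nonneg u x
          have a6 := gd_self_nonneg η (prj (fun i => ¬ p i) x)
          have a8 : χ (prj p x) ^ 2 ≤ χ (prj p x) := by nlinarith
          have a9 : χ (prj p x) ^ 2 * gd η η (prj (fun i => ¬ p i) x) ≤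
              χ (prj p x) * W (prj (fun i => ¬ p i) x) :=
            mul_le_mul a8 a2 a6 a3
          calc gd u u x * (χ (prj p x) ^ 2 * gd η η (prj (fun i => ¬ p i) x))
              ≤ (2 * en u x) * (χ (prj p x) * W (prj (fun i => ¬ p i) x)) :=
                mul_le_mul a1 a9 (mul_nonneg (by positivity) a6) (a5.trans a1)
            _ = _ := by ring
      _ = 2 * ∫ x, χ (prj p x) * W (prj (fun i => ¬ p i) x) * en u x := by
          rw [integral_const_mul]

/-- the integral of the derivative of a product -/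
theorem b_fd {ι : Type} [Fintype ι] (p : ι → Prop) [DecidablePred p]
    {χ : V {i // p i} → ℝ} {W : V {i // ¬ p i} → ℝ} (hχ : T1 χ)
    (h0 : ∀ z, 0 ≤ χ z) (hW : T1 W) (hW0 : ∀ y, 0 ≤ W y) :
    ∫ x, ‖fderiv ℝ (fun x : V ι => χ (prj p x) * W (prj (fun i => ¬ p i) x)) x‖ ≤
      (∫ z, ‖fderiv ℝ χ z‖) * (∫ y, W y) + (∫ z, χ z) * ∫ y, ‖fderiv ℝ W y‖ := by
  have hF1 : Integrable fun x : V ι =>
      ‖fderiv ℝ χ (prj p x)‖ * W (prj (fun i => ¬ p i) x) :=
    a6b_int p (f := fun y => ‖fderiv ℝ χ y‖) (g := W)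
      (hχ.1.continuous_fderiv one_ne_zero).norm hW.continuous
      (hχ.2.fderiv (𝕜 := ℝ)).norm hW.2
  have hF2 : Integrable fun x : V ι =>
      χ (prj p x) * ‖fderiv ℝ W (prj (fun i => ¬ p i) x)‖ :=
    a6b_int p (f := χ) (g := fun z => ‖fderiv ℝ W z‖)
      hχ.continuous (hW.1.continuous_fderiv one_ne_zero).norm hχ.2
      (hW.2.fderiv (𝕜 := ℝ)).norm
  calc ∫ x, ‖fderiv ℝ (fun x : V ι => χ (prj p x) * W (prj (fun i => ¬ p i) x)) x‖
      ≤ ∫ x, (‖fderiv ℝ χ (prj p x)‖ * W (prj (fun i => ¬ p i) x) +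
        χ (prj p x) * ‖fderiv ℝ W (prj (fun i => ¬ p i) x)‖) := by
        apply integral_mono _ (hF1.add hF2)
        · intro x
          have := ge_fderiv_prod p hχ.1 hW.1 x
          rw [abs_of_nonneg (hW0 _), abs_of_nonneg (h0 _)] at this
          exact this
        · exact integrable_cs ((t1_prod p hχ hW).1.continuous_fderiv one_ne_zero).norm
            ((t1_prod p hχ hW).2.fderiv (𝕜 := ℝ)).norm
    _ = _ := by
        rw [integral_add hF1 hF2, integral_split p (fun y => ‖fderiv ℝ χ y‖) W,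
          integral_split p χ (fun z => ‖fderiv ℝ W z‖)]

theorem b_prj_le {ι : Type} [Fintype ι] (p : ι → Prop) [DecidablePred p] (x : V ι) :
    ‖prj p x‖ ≤ ‖x‖ := by
  have h1 : ‖prj p x‖ ^ 2 ≤ ‖x‖ ^ 2 := by
    rw [EuclideanSpace.norm_sq_eq, EuclideanSpace.norm_sq_eq]
    rw [← Fintype.sum_subtype_add_sum_subtype p (fun i => ‖x i‖ ^ 2)]
    have : 0 ≤ ∑ i : {i // ¬ p i}, ‖x i.1‖ ^ 2 := Finset.sum_nonneg fun i _ => by positivity
    have h2 : ∑ i : {i // p i}, ‖prj p x i‖ ^ 2 = ∑ i : {i // p i}, ‖x i.1‖ ^ 2 := rfl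
    rw [h2]
    linarith
  exact le_of_sq_le_sq h1 (norm_nonneg _)

theorem b_prj_emb {ι : Type} [Fintype ι] (p : ι → Prop) [DecidablePred p] (z : V {i // p i}) :
    prj (fun i => ¬ p i) (emb p z) = 0 := by
  ext i
  rw [prj_apply, emb_apply, dif_neg i.2]
  rfl

theorem s_B (hA : S_A) (hAE : S_AE) (hEP : S_EP) (hTH : S_TH) (hFC : S_FC) (hCL : S_CL)
    (hCH : S_CH) : S_B := by
  intro ι _ _ p _ i₀ hi₀ hcard e he he0 K r δ ε hδ hε
  rcases Nat.lt_or_ge (Fintype.card {i // ¬ p i}) 3 with h2 | h3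
  · obtain ⟨R₀, hR₀⟩ := hA ι p (by omega) K r δ ε hδ hε
    exact ⟨R₀, fun R hR u hu hpos a S hS hSa hc =>
      hR₀ R hR u hu (stab_of_pos hu e hpos) a S hS hSa hc⟩
  have hn : Fintype.card {i // ¬ p i} = 3 := le_antisymm hcard h3
  set m := Fintype.card {i // p i} with hm
  obtain ⟨N, C₁, hC₁, hcount⟩ := count_of hTH hFC hCL ι p K r δ hδ
  obtain ⟨Cx, hCx, hχ⟩ := hCH {i // p i}
  obtain ⟨C₂, hC₂, hAE'⟩ := hAE ι p i₀ hi₀ hcard e he he0 K Cx
  obtain ⟨c, hc0, hW⟩ := b_wcut {i // ¬ p i} hn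
  -- the choice of `T`
  set q : ℝ := 2 ^ m * C₁ with hq
  have hq0 : 0 ≤ q := by positivity
  set A₁ : ℝ := 2 * C₂ * (c + 1) + 4 * K ^ 2 * (Cx * c) with hA₁
  have hA₁0 : 0 ≤ A₁ := by positivity
  obtain ⟨T, hT2, hTN, hTe⟩ : ∃ T : ℝ, 2 ≤ T ∧ Real.log (1 + ((N : ℝ) + 1) ^ 2) / 2 ≤ T ∧
      2 * q * A₁ / ε ≤ T :=
    ⟨max (max 2 (Real.log (1 + ((N : ℝ) + 1) ^ 2) / 2)) (2 * q * A₁ / ε),
      (le_max_left _ _).trans (le_max_left _ _), (le_max_right _ _).trans (le_max_left _ _),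
      le_max_right _ _⟩
  have hT0 : 0 < T := by linarith
  obtain ⟨c1, c3, W, w1, w2, w3, w4⟩ := hW T hT2
  obtain ⟨R₁, hR₁⟩ := hAE' W w1 w2 (1 / T) (by positivity)
  set IE : ℝ := ∫ y : V {i // ¬ p i}, cut T y ^ 2 with hIE
  set IW : ℝ := ∫ y, W y with hIW
  have hIE0 : 0 ≤ IE := integral_nonneg fun y => by positivity
  have hIW0 : 0 ≤ IW := integral_nonneg w2
  set A₂ : ℝ := K ^ 2 * Cx * IE + 4 * K ^ 2 * Cx * IW with hA₂
  have hA₂0 : 0 ≤ A₂ := by positivity
  refine ⟨max (max 1 R₁) (max (N + 1) (2 * q * A₂ / ε)), fun R hR u hu hpos a S hS hSa hcl => ?_⟩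
  have hR1 : 1 ≤ R := ((le_max_left _ _).trans (le_max_left _ _)).trans hR
  have hRR : R₁ ≤ R := ((le_max_right _ _).trans (le_max_left _ _)).trans hR
  have hRN : (N : ℝ) + 1 ≤ R := ((le_max_left _ _).trans (le_max_right _ _)).trans hR
  have hRe : 2 * q * A₂ / ε ≤ R := ((le_max_right _ _).trans (le_max_right _ _)).trans hR
  have hR0 : 0 < R := by linarith
  have hst : Stab u := stab_of_pos hu e hpos
  obtain ⟨v, hv, hvst, hve, hlim, hlim'⟩ := exists_profile hu hst e fun x => (hpos x).le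
  obtain ⟨χ, hwin⟩ := hχ (2 * R) (by linarith) a
  obtain ⟨x1, x2, x3, x4, x5, x6, x7, x8⟩ := id hwin
  have hS1 := hcount u hu hst S hS hcl
    (fun x => χ (prj p x) * cut T (prj (fun i => ¬ p i) x)) (t1_prod p x1 c1) ?_
  · have hcyl := b_cyl p hu x1 x2 c1 w1 w3
    have hep := hEP ι K u v hu hv e (fun x => (hpos x).le) hlim hlim'
      (fun x => χ (prj p x) * W (prj (fun i => ¬ p i) x)) (t1_prod p x1 w1)
      fun x => mul_nonneg (x2 _).1 (w2 _)
    have hfd := b_fd p x1 (fun z => (x2 z).1) w1 w2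
    have hae := hR₁ (2 * R) (by linarith) v hv hvst hve a χ hwin
    set P : ℝ := (2 * R) ^ m with hP
    have hP0 : 0 ≤ P := by positivity
    have hPR : P = 2 ^ m * R ^ m := by rw [hP, mul_pow]
    have k1 : (∫ z, ‖fderiv ℝ χ z‖ ^ 2) * IE ≤ (Cx / R * P) * IE := by
      apply mul_le_mul_of_nonneg_right _ hIE0
      refine x8.trans ?_
      apply mul_le_mul_of_nonneg_right _ hP0
      apply div_le_div_of_nonneg_left hCx hR0
      nlinarith
    have k2 : (∫ z, ‖fderiv ℝ χ z‖) * IW ≤ (Cx / R * P) * IW := by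
      apply mul_le_mul_of_nonneg_right _ hIW0
      refine x7.trans ?_
      apply mul_le_mul_of_nonneg_right _ hP0
      apply div_le_div_of_nonneg_left hCx hR0
      linarith
    have k3 : (∫ z, χ z) * ∫ y, ‖fderiv ℝ W y‖ ≤ (Cx * P) * (c / T) :=
      mul_le_mul x6 w4 (integral_nonneg fun y => norm_nonneg _) (by positivity)
    have k4 : C₂ * P * ((∫ y, ‖fderiv ℝ W y‖) + 1 / T) ≤ C₂ * P * (c / T + 1 / T) := by
      apply mul_le_mul_of_nonneg_left _ (by positivity)
      linarith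
    have k5 : ∫ x, gd u u x * gd (fun x => χ (prj p x) * cut T (prj (fun i => ¬ p i) x))
        (fun x => χ (prj p x) * cut T (prj (fun i => ¬ p i) x)) x ≤
        P * (A₁ / T + A₂ / R) := by
      have hK2 : 0 ≤ K ^ 2 := by positivity
      have m1 := mul_le_mul_of_nonneg_left k1 hK2
      have m2 := mul_le_mul_of_nonneg_left (hfd.trans (add_le_add k2 k3)) hK2
      calc _ ≤ K ^ 2 * ((∫ z, ‖fderiv ℝ χ z‖ ^ 2) * IE) +
            2 * ∫ x, χ (prj p x) * W (prj (fun i => ¬ p i) x) * en u x := hcyl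
        _ ≤ K ^ 2 * ((Cx / R * P) * IE) + 2 * (C₂ * P * (c / T + 1 / T) +
              2 * (K ^ 2 * (Cx / R * P * IW + Cx * P * (c / T)))) := by
            linarith
        _ = P * (A₁ / T + A₂ / R) := by
            rw [hA₁, hA₂]
            field_simp
            ring
    have k6 : q * (A₁ / T) ≤ ε / 2 := by
      rw [div_le_iff₀ hε] at hTe
      rw [← mul_div_assoc, div_le_iff₀ hT0]
      linarith
    have k7 : q * (A₂ / R) ≤ ε / 2 := by
      rw [div_le_iff₀ hε] at hRe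
      rw [← mul_div_assoc, div_le_iff₀ hR0]
      linarith
    calc (S.card : ℝ) ≤ C₁ * _ := hS1
      _ ≤ C₁ * (P * (A₁ / T + A₂ / R)) := mul_le_mul_of_nonneg_left k5 hC₁
      _ = (q * (A₁ / T) + q * (A₂ / R)) * R ^ m := by rw [hPR, hq]; ring
      _ ≤ ε * R ^ m := by
          apply mul_le_mul_of_nonneg_right _ (by positivity)
          linarith
  · intro z hz x hx
    have e1 : ‖prj p x - a‖ ≤ 2 * R := by
      have h1 : ‖prj p x - z‖ ≤ N + 1 := by
        have h2 : prj p x - z = prj p (x - emb p z) := by rw [map_sub, prj_emb]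
        rw [h2]
        exact (b_prj_le p _).trans hx
      calc ‖prj p x - a‖ = ‖(prj p x - z) + (z - a)‖ := by congr 1; abel
        _ ≤ ‖prj p x - z‖ + ‖z - a‖ := norm_add_le _ _
        _ ≤ 2 * R := by linarith [hSa z hz]
    have e2 : ‖prj (fun i => ¬ p i) x‖ ≤ N + 1 := by
      have h2 : prj (fun i => ¬ p i) x = prj (fun i => ¬ p i) (x - emb p z) := by
        rw [map_sub, b_prj_emb, sub_zero]
      rw [h2]
      exact (b_prj_le _ _).trans hx
    have e3 : lg (prj (fun i => ¬ p i) x) ≤ T := by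
      refine le_trans ?_ hTN
      unfold lg
      have h0 : 0 ≤ ‖prj (fun i => ¬ p i) x‖ := norm_nonneg _
      have h1 : ‖prj (fun i => ¬ p i) x‖ ^ 2 ≤ ((N : ℝ) + 1) ^ 2 := pow_le_pow_left₀ h0 e2 2
      have h2 : Real.log (1 + ‖prj (fun i => ¬ p i) x‖ ^ 2) ≤
          Real.log (1 + ((N : ℝ) + 1) ^ 2) :=
        Real.log_le_log (by positivity) (by linarith)
      linarith
    rw [x3 _ e1, c3 _ e3, mul_one]

end Pool.Agent.Helper70.DGL
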