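import Pool.Agent.Helper70.DGL.U

/-! Project DGL: counting with a cutoff -/

set_option autoImplicit false

open MeasureTheory Metric Set Filter Topology
open scoped ContDiff

namespace Pool.Agent.Helper70.DGL

open Pool.Agent.Helper68.DG

/-- TH, FC and CL together -/
theorem count_of (hTH : S_TH) (hFC : S_FC) (hCL : S_CL) (ι : Type) [Fintype ι]
    (p : ι → Prop) [DecidablePred p] (K r δ : ℝ) (hδ : 0 < δ) :
    ∃ (N : ℕ) (C : ℝ), 0 ≤ C ∧ ∀ u : V ι → ℝ, GS K u → Stab u →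
      ∀ S : Finset (V {i // p i}), Sep 1 S →
      (∀ z ∈ S, ¬ Close K r δ (tr (emb p z) u)) → ∀ ξ : V ι → ℝ, T1 ξ →
      (∀ z ∈ S, ∀ x, ‖x - emb p z‖ ≤ N + 1 → ξ x = 1) →
      (S.card : ℝ) ≤ C * ∫ x, gd u u x * gd ξ ξ x := by
  obtain ⟨N, hN⟩ := hCL ι K r δ hδ
  obtain ⟨C₁, hC₁, h1⟩ := hTH {i // p i} (2 * N + 2)
  obtain ⟨C₂, hC₂, h2⟩ := hFC ι K N
  refine ⟨N, C₁ * C₂, by positivity, fun u hu hst S hS hc ξ hξ hx => ?_⟩
  obtain ⟨S', hS', hsep, hcard⟩ := h1 S hS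
  have hinj : Function.Injective (emb p) := by
    intro y z h
    rw [← prj_emb p y, h, prj_emb]
  set Q : Finset (V ι) := S'.map ⟨emb p, hinj⟩ with hQ
  have hQc : Q.card = S'.card := Finset.card_map _
  have hmem : ∀ v, v ∈ Q ↔ ∃ z ∈ S', emb p z = v := by
    intro v
    rw [hQ, Finset.mem_map]
    rfl
  have hsepQ : Sep (2 * N + 2) Q := by
    intro x hx y hy hxy
    obtain ⟨z, hz, rfl⟩ := (hmem x).1 hx
    obtain ⟨w, hw, rfl⟩ := (hmem y).1 hy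
    have := hsep z hz w hw (fun h => hxy (by rw [h]))
    rwa [← map_sub, norm_emb]
  have h3 := h2 u hu hst Q hsepQ ?_ ξ hξ ?_
  · rw [hQc] at h3
    calc (S.card : ℝ) ≤ C₁ * S'.card := hcard
      _ ≤ C₁ * (C₂ * ∫ x, gd u u x * gd ξ ξ x) := mul_le_mul_of_nonneg_left h3 hC₁.le
      _ = _ := by ring
  · intro v hv hSD
    obtain ⟨z, hz, rfl⟩ := (hmem v).1 hv
    apply hc z (hS' hz)
    exact hN _ (gs_tr hu _) (stab_tr hst _) hSD
  · intro v hv x hx'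
    obtain ⟨z, hz, rfl⟩ := (hmem v).1 hv
    exact hx z (hS' hz) x hx'

end Pool.Agent.Helper70.DGL
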