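import Pool.Agent.Helper69.DGL.LI

/-!
# Project DGL (MP_800410_an, De Giorgi): random solutions with invariant law

General lemmas on random functions on `ℝⁿ` whose law is invariant under some translations.
-/

set_option autoImplicit false

open MeasureTheory Filter Topology Module

namespace Pool.Agent.Helper70.DGL.Rand

abbrev E (n : ℕ) : Type := EuclideanSpace ℝ (Fin n)

/-- the translate -/
def T {n : ℕ} (w : E n) (f : E n → ℝ) : E n → ℝ := fun x => f (x + w)

theorem measurable_T {n : ℕ} (w : E n) : Measurable (T w) :=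
  measurable_pi_lambda _ fun x => measurable_pi_apply (x + w)

/-- the group of the translations which preserve the law of `u` -/
def G {n : ℕ} {Ω : Type} [MeasurableSpace Ω] (P : Measure Ω) (u : Ω → E n → ℝ)
    (hm : Measurable u) : AddSubgroup (E n) where
  carrier := {w | P.map (fun ω => T w (u ω)) = P.map u}
  zero_mem' := by
    have h : (fun ω => T 0 (u ω)) = u := by
      funext ω x
      simp [T]
    simp [h]
  add_mem' := by
    intro a b ha hb
    change _ = _ at ha hb
    change _ = _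
    have h : (fun ω => T (a + b) (u ω)) = T b ∘ (fun ω => T a (u ω)) := by
      funext ω x
      simp only [T, Function.comp_apply]
      congr 1
      abel
    have h1 : Measurable fun ω => T a (u ω) := (measurable_T a).comp hm
    rw [h, ← Measure.map_map (measurable_T b) h1, ha, Measure.map_map (measurable_T b) hm]
    exact hb
  neg_mem' := by
    intro a ha
    change _ = _ at ha
    change _ = _
    have h : u = T (-a) ∘ (fun ω => T a (u ω)) := by
      funext ω x
      simp only [T, Function.comp_apply]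
      congr 1
      abel
    have h1 : Measurable fun ω => T a (u ω) := (measurable_T a).comp hm
    have h2 : P.map u = P.map (T (-a) ∘ (fun ω => T a (u ω))) := by rw [← h]
    rw [← Measure.map_map (measurable_T (-a)) h1, ha, Measure.map_map (measurable_T (-a)) hm] at h2
    exact h2.symm

theorem mem_G {n : ℕ} {Ω : Type} [MeasurableSpace Ω] {P : Measure Ω} {u : Ω → E n → ℝ}
    {hm : Measurable u} {w : E n} :
    w ∈ G P u hm ↔ P.map (fun ω => T w (u ω)) = P.map u := Iff.rfl

theorem smul_mem_G {n : ℕ} {Ω : Type} [MeasurableSpace Ω] {P : Measure Ω} {u : Ω → E n → ℝ}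
    {hm : Measurable u} {w : E n} (hw : w ∈ G P u hm) (z : ℤ) : (z : ℝ) • w ∈ G P u hm := by
  rw [Int.cast_smul_eq_zsmul]
  exact AddSubgroup.zsmul_mem _ hw z

theorem sum_mem_G {n k : ℕ} {Ω : Type} [MeasurableSpace Ω] {P : Measure Ω} {u : Ω → E n → ℝ}
    {hm : Measurable u} {v : Fin k → E n} (hv : ∀ i, v i ∈ G P u hm) (z : Fin k → ℤ) :
    ∑ i, (z i : ℝ) • v i ∈ G P u hm :=
  AddSubgroup.sum_mem _ fun i _ => smul_mem_G (hv i) (z i)

/-- invariance of the probability of an event -/
theorem prob_eq {n : ℕ} {Ω : Type} [MeasurableSpace Ω] {P : Measure Ω} {u : Ω → E n → ℝ}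
    {hm : Measurable u} {w : E n} (hw : w ∈ G P u hm) {B : Set (E n → ℝ)} (hB : MeasurableSet B) :
    P.real {ω | T w (u ω) ∈ B} = P.real {ω | u ω ∈ B} := by
  have h1 : P.map (fun ω => T w (u ω)) B = P.map u B := by rw [mem_G.1 hw]
  have h2 : Measurable fun ω => T w (u ω) := (measurable_T w).comp hm
  rw [Measure.map_apply h2 hB, Measure.map_apply hm hB] at h1
  unfold Measure.real
  exact congrArg ENNReal.toReal h1

/-- invariance of integrals -/
theorem integral_eq {n : ℕ} {Ω : Type} [MeasurableSpace Ω] {P : Measure Ω} {u : Ω → E n → ℝ}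
    {hm : Measurable u} {w : E n} (hw : w ∈ G P u hm) {f : (E n → ℝ) → ℝ} (hf : Measurable f) :
    ∫ ω, f (T w (u ω)) ∂P = ∫ ω, f (u ω) ∂P := by
  have h1 : ∫ y, f y ∂(P.map fun ω => T w (u ω)) = ∫ y, f y ∂(P.map u) := by rw [mem_G.1 hw]
  have h2 : Measurable fun ω => T w (u ω) := (measurable_T w).comp hm
  rwa [integral_map h2.aemeasurable hf.aestronglyMeasurable,
    integral_map hm.aemeasurable hf.aestronglyMeasurable] at h1

/-- the integer combinations of a multiple of linearly independent vectors are 1-separated -/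
theorem exists_sep {n k : ℕ} {v : Fin k → E n} (hv : LinearIndependent ℝ v) :
    ∃ M : ℕ, 1 ≤ M ∧ ∀ z : Fin k → ℤ, z ≠ 0 → 1 ≤ ‖∑ i, (z i : ℝ) • ((M : ℝ) • v i)‖ := by
  obtain ⟨K, hK, hA⟩ := (Fintype.linearCombination ℝ v).exists_antilipschitzWith
    (LinearMap.ker_eq_bot.2 hv.fintypeLinearCombination_injective)
  obtain ⟨M, hM⟩ := exists_nat_ge (max (K : ℝ) 1)
  have hM1 : (1 : ℝ) ≤ M := (le_max_right _ _).trans hM
  refine ⟨M, by exact_mod_cast hM1, fun z hz => ?_⟩
  obtain ⟨j, hj⟩ : ∃ j, z j ≠ 0 := by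
    by_contra hcon
    push Not at hcon
    exact hz (funext hcon)
  set y : Fin k → ℝ := fun i => (z i : ℝ) * M with hy
  have h1 : ∑ i, (z i : ℝ) • ((M : ℝ) • v i) = Fintype.linearCombination ℝ v y := by
    rw [Fintype.linearCombination_apply]
    refine Finset.sum_congr rfl fun i _ => ?_
    rw [smul_smul]
  have h2 := hA.le_mul_dist y 0
  rw [map_zero, dist_zero_right, dist_zero_right] at h2
  have h3 : (M : ℝ) ≤ ‖y‖ := by
    have h4 := norm_le_pi_norm y j
    have h5 : (1 : ℝ) ≤ |(z j : ℝ)| := by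
      have : 1 ≤ |z j| := Int.one_le_abs hj
      exact_mod_cast this
    have h6 : ‖y j‖ = |(z j : ℝ)| * M := by
      rw [hy, Real.norm_eq_abs, abs_mul, abs_of_nonneg (by linarith : (0 : ℝ) ≤ M)]
    rw [h6] at h4
    nlinarith
  rw [h1]
  have hK0 : (0 : ℝ) < K := by exact_mod_cast hK
  have hKM : (K : ℝ) ≤ M := (le_max_left _ _).trans hM
  by_contra hcon
  push Not at hcon
  have : (K : ℝ) * ‖Fintype.linearCombination ℝ v y‖ < K * 1 := by
    exact mul_lt_mul_of_pos_left hcon hK0
  linarith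

/-- simultaneous approximation: multiples of a vector of the span come close to the lattice -/
theorem exists_return {n k : ℕ} {v : Fin k → E n} {e : E n}
    (he : e ∈ Submodule.span ℝ (Set.range v)) {δ : ℝ} (hδ : 0 < δ) :
    ∃ m : ℕ, 1 ≤ m ∧ ∃ z : Fin k → ℤ, ‖∑ i, (z i : ℝ) • v i - (m : ℝ) • e‖ < δ := by
  obtain ⟨a, ha⟩ := (Submodule.mem_span_range_iff_exists_fun ℝ).1 he
  set x : ℕ → Fin k → ℝ := fun j i => Int.fract ((j : ℝ) * a i) with hx
  have hxI : ∀ j, x j ∈ Set.Icc (0 : Fin k → ℝ) 1 := fun j =>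
    ⟨fun i => Int.fract_nonneg _, fun i => (Int.fract_lt_one _).le⟩
  obtain ⟨b, -, φ, hφ, hlim⟩ := (isCompact_Icc (a := (0 : Fin k → ℝ)) (b := 1)).tendsto_subseq hxI
  set W : ℝ := ∑ i, ‖v i‖ with hW
  have hW0 : 0 ≤ W := Finset.sum_nonneg fun i _ => norm_nonneg _
  obtain ⟨N, hN⟩ := Metric.cauchySeq_iff.1 hlim.cauchySeq (δ / (W + 1)) (by positivity)
  have h1 := hN (N + 1) (Nat.le_succ N) N le_rfl
  have hlt : φ N < φ (N + 1) := hφ (Nat.lt_succ_self N)
  refine ⟨φ (N + 1) - φ N, by omega, fun i => ⌊(φ (N + 1) : ℝ) * a i⌋ - ⌊(φ N : ℝ) * a i⌋, ?_⟩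
  have h2 : ∑ i, (((⌊(φ (N + 1) : ℝ) * a i⌋ - ⌊(φ N : ℝ) * a i⌋ : ℤ)) : ℝ) • v i -
      ((φ (N + 1) - φ N : ℕ) : ℝ) • e = ∑ i, (x (φ N) i - x (φ (N + 1)) i) • v i := by
    rw [← ha, Finset.smul_sum, ← Finset.sum_sub_distrib]
    refine Finset.sum_congr rfl fun i _ => ?_
    rw [smul_smul, ← sub_smul, Nat.cast_sub hlt.le]
    congr 1
    simp only [hx, Int.fract]
    push_cast
    ring
  rw [h2]
  have h3 : ∀ i, |x (φ N) i - x (φ (N + 1)) i| ≤ δ / (W + 1) := by
    intro i
    have h4 := (dist_le_pi_dist ((x ∘ φ) (N + 1)) ((x ∘ φ) N) i).trans h1.le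
    rw [Real.dist_eq, abs_sub_comm] at h4
    exact h4
  calc ‖∑ i, (x (φ N) i - x (φ (N + 1)) i) • v i‖
      ≤ ∑ i, ‖(x (φ N) i - x (φ (N + 1)) i) • v i‖ := norm_sum_le _ _
    _ ≤ ∑ i, δ / (W + 1) * ‖v i‖ := by
        refine Finset.sum_le_sum fun i _ => ?_
        rw [norm_smul, Real.norm_eq_abs]
        exact mul_le_mul_of_nonneg_right (h3 i) (norm_nonneg _)
    _ = δ / (W + 1) * W := by rw [← Finset.mul_sum]
    _ < δ := by
        rw [div_mul_eq_mul_div, div_lt_iff₀ (by positivity)]
        nlinarith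

/-- the planar transitions -/
noncomputable def tn {n : ℕ} (p : E n × ℝ) (x : E n) : ℝ := Real.tanh ((inner ℝ p.1 x - p.2) / √2)

theorem continuous_tn {n : ℕ} : Continuous fun q : (E n × ℝ) × E n => tn q.1 q.2 := by
  unfold tn
  refine Helper69.DGL.continuous_tanh.comp ?_
  exact ((Continuous.inner (continuous_fst.comp continuous_fst) continuous_snd).sub
    (continuous_snd.comp continuous_fst)).div_const _

/-- A measurable set of functions, between the functions which are `δ/2`-close and those which are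
`δ`-close to a planar transition on the ball. -/
theorem exists_event {n : ℕ} (r δ : ℝ) (hδ : 0 < δ) : ∃ B : Set (E n → ℝ), MeasurableSet B ∧
    (∀ f : E n → ℝ, ∀ (a : E n) (c : ℝ), ‖a‖ = 1 →
      (∀ x, ‖x‖ ≤ r → |f x - Real.tanh ((inner ℝ a x - c) / √2)| ≤ δ / 2) → f ∈ B) ∧
    ∀ f ∈ B, Continuous f → ∃ (a : E n) (c : ℝ), ‖a‖ = 1 ∧
      ∀ x, ‖x‖ ≤ r → |f x - Real.tanh ((inner ℝ a x - c) / √2)| ≤ δ := by
  obtain ⟨D, hDc, hDd⟩ := TopologicalSpace.exists_countable_dense {p : E n × ℝ // ‖p.1‖ = 1}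
  obtain ⟨Q, hQc, hQd⟩ := TopologicalSpace.exists_countable_dense (Metric.closedBall (0 : E n) r)
  refine ⟨⋃ p ∈ D, ⋂ x ∈ Q, {f | |f x - tn p.1 x| ≤ δ}, ?_, ?_, ?_⟩
  · refine MeasurableSet.biUnion hDc fun p _ => MeasurableSet.biInter hQc fun x _ => ?_
    exact measurableSet_le (((measurable_pi_apply _).sub measurable_const).abs) measurable_const
  · intro f a c ha hf
    -- a planar transition from the dense set
    obtain ⟨W, hWo, hW⟩ : ∃ W : Set ((E n × ℝ) × E n), IsOpen W ∧
        ∀ p x, (p, x) ∈ W ↔ |tn p x - tn (a, c) x| < δ / 2 :=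
      ⟨{q | |tn q.1 q.2 - tn (a, c) q.2| < δ / 2},
        isOpen_lt ((continuous_tn.sub (continuous_tn.comp
          (continuous_const.prodMk continuous_snd))).abs) continuous_const,
        fun p x => Iff.rfl⟩
    obtain ⟨U, V, hU, hV, hpU, hKV, hUV⟩ := generalized_tube_lemma
      (isCompact_singleton (x := ((a, c) : E n × ℝ))) (isCompact_closedBall (0 : E n) r)
      hWo (by
          rintro ⟨p, x⟩ hpx
          have hp' : p = (a, c) := Set.mem_singleton_iff.1 (Set.mem_prod.1 hpx).1
          rw [hW, hp', sub_self, abs_zero]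
          positivity)
    have hU0 : ((a, c) : E n × ℝ) ∈ U := hpU (Set.mem_singleton _)
    obtain ⟨p, hpD, hpU'⟩ := hDd.exists_mem_open (hU.preimage continuous_subtype_val)
      ⟨⟨(a, c), ha⟩, hU0⟩
    refine Set.mem_biUnion hpD (Set.mem_biInter fun x _ => ?_)
    have hpU2 : p.1 ∈ U := hpU'
    have hxr : ‖x.1‖ ≤ r := mem_closedBall_zero_iff.1 x.2
    have h1 : |tn p.1 x.1 - tn (a, c) x.1| < δ / 2 :=
      (hW _ _).1 (hUV (Set.mk_mem_prod hpU2 (hKV x.2)))
    have h2 := hf x.1 hxr
    change |f x - tn p.1 x| ≤ δ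
    change |f x - tn (a, c) x| ≤ δ / 2 at h2
    have h3 := abs_le.1 h2
    have h4 := abs_lt.1 h1
    rw [abs_le]
    constructor <;> linarith [h3.1, h3.2, h4.1, h4.2]
  · intro f hf hcont
    obtain ⟨p, hp, hf⟩ := Set.mem_iUnion₂.1 hf
    rw [Set.mem_iInter₂] at hf
    refine ⟨p.1.1, p.1.2, p.2, fun x hx => ?_⟩
    have hcl : IsClosed {y : Metric.closedBall (0 : E n) r | |f y - tn p.1 y| ≤ δ} :=
      isClosed_le (((hcont.comp continuous_subtype_val).sub (continuous_tn.comp
        (continuous_const.prodMk continuous_subtype_val))).abs) continuous_const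
    have huniv : {y : Metric.closedBall (0 : E n) r | |f y - tn p.1 y| ≤ δ} = Set.univ := by
      rw [Set.eq_univ_iff_forall]
      intro y
      have h1 : closure Q ⊆ {y : Metric.closedBall (0 : E n) r | |f y - tn p.1 y| ≤ δ} :=
        closure_minimal (fun y hy => hf y hy) hcl
      exact h1 (hQd.closure_eq ▸ Set.mem_univ y)
    exact (Set.eq_univ_iff_forall.1 huniv) ⟨x, by simpa using hx⟩

/-- Counting: if, almost surely, an event fails at few points of every separated set in the span,
then it has probability one. -/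
theorem prob_zero {n k : ℕ} {Ω : Type} [MeasurableSpace Ω] {P : Measure Ω} [IsProbabilityMeasure P]
    {u : Ω → E n → ℝ} {hm : Measurable u} {v : Fin k → E n} (hv : LinearIndependent ℝ v)
    (hG : ∀ i, v i ∈ G P u hm) {B : Set (E n → ℝ)} (hB : MeasurableSet B)
    (hcount : ∀ ε : ℝ, 0 < ε → ∃ R₀ : ℝ, ∀ R : ℝ, R₀ ≤ R → ∀ᵐ ω ∂P, ∀ S : Finset (E n),
      (∀ x ∈ S, ∀ y ∈ S, x ≠ y → 1 ≤ ‖x - y‖) →
      (∀ x ∈ S, x ∈ Submodule.span ℝ (Set.range v) ∧ ‖x‖ ≤ R) →
      (∀ x ∈ S, T x (u ω) ∈ B) → (S.card : ℝ) ≤ ε * R ^ k) :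
    P.real {ω | u ω ∈ B} = 0 := by
  classical
  set p : ℝ := P.real {ω | u ω ∈ B} with hp
  have hp0 : 0 ≤ p := measureReal_nonneg
  refine le_antisymm (le_of_forall_pos_le_add fun ε hε => ?_) hp0
  rw [zero_add]
  obtain ⟨M, hM1, hM⟩ := exists_sep hv
  set C : ℝ := max 1 (M * ∑ i, ‖v i‖) with hC
  have hC1 : 1 ≤ C := le_max_left _ _
  obtain ⟨R₀, hR₀⟩ := hcount (ε / C ^ k) (by positivity)
  obtain ⟨N, hN⟩ := exists_nat_ge (max R₀ 1)
  have hN1 : (1 : ℝ) ≤ N := (le_max_right _ _).trans hN
  have hNR : R₀ ≤ N * C := ((le_max_left _ _).trans hN).trans (by nlinarith)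
  set w : (Fin k → Fin N) → E n := fun m => ∑ i, ((m i : ℕ) : ℝ) • ((M : ℝ) • v i) with hw
  have hwG : ∀ m, w m ∈ G P u hm := by
    intro m
    have h1 := sum_mem_G (v := fun i => (M : ℝ) • v i) (P := P) (u := u) (hm := hm)
      (fun i => by
        have := smul_mem_G (hG i) (M : ℤ)
        rwa [Int.cast_natCast] at this) (fun i => ((m i : ℕ) : ℤ))
    simpa only [Int.cast_natCast] using h1
  have hwS : ∀ m m', m ≠ m' → 1 ≤ ‖w m - w m'‖ := by
    intro m m' hmm
    have h1 := hM (fun i => ((m i : ℕ) : ℤ) - ((m' i : ℕ) : ℤ)) (by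
      intro h0
      apply hmm
      funext i
      have := congrFun h0 i
      simp only [Pi.zero_apply] at this
      apply Fin.ext
      omega)
    have h2 : w m - w m' =
        ∑ i, ((((m i : ℕ) : ℤ) - ((m' i : ℕ) : ℤ) : ℤ) : ℝ) • ((M : ℝ) • v i) := by
      rw [hw, ← Finset.sum_sub_distrib]
      refine Finset.sum_congr rfl fun i _ => ?_
      rw [← sub_smul]
      push_cast
      rfl
    rw [h2]
    exact h1
  have hwinj : Function.Injective w := by
    intro m m' h
    by_contra hne
    have := hwS m m' hne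
    rw [h, sub_self, norm_zero] at this
    linarith
  have hwF : ∀ m, w m ∈ Submodule.span ℝ (Set.range v) := fun m =>
    Submodule.sum_mem _ fun i _ => Submodule.smul_mem _ _ (Submodule.smul_mem _ _
      (Submodule.subset_span ⟨i, rfl⟩))
  have hwR : ∀ m, ‖w m‖ ≤ N * C := by
    intro m
    calc ‖w m‖ ≤ ∑ i, ‖((m i : ℕ) : ℝ) • ((M : ℝ) • v i)‖ := norm_sum_le _ _
      _ ≤ ∑ i, N * (M * ‖v i‖) := by
          refine Finset.sum_le_sum fun i _ => ?_
          rw [norm_smul, norm_smul, Real.norm_natCast, Real.norm_natCast]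
          have : ((m i : ℕ) : ℝ) ≤ N := by exact_mod_cast (m i).2.le
          exact mul_le_mul_of_nonneg_right this (by positivity)
      _ = N * (M * ∑ i, ‖v i‖) := by rw [Finset.mul_sum, Finset.mul_sum]
      _ ≤ N * C := mul_le_mul_of_nonneg_left (le_max_right _ _) (by positivity)
  -- the number of bad translates
  have hcard : ∀ᵐ ω ∂P, ∑ m, ({ω | T (w m) (u ω) ∈ B} : Set Ω).indicator (fun _ => (1 : ℝ)) ω ≤
      ε * (N : ℝ) ^ k := by
    filter_upwards [hR₀ (N * C) hNR] with ω hω
    have h1 := hω ((Finset.univ.filter fun m => T (w m) (u ω) ∈ B).image w)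
      (by
        intro x hx y hy hxy
        obtain ⟨m, -, rfl⟩ := Finset.mem_image.1 hx
        obtain ⟨m', -, rfl⟩ := Finset.mem_image.1 hy
        exact hwS m m' fun h => hxy (by rw [h]))
      (by
        intro x hx
        obtain ⟨m, -, rfl⟩ := Finset.mem_image.1 hx
        exact ⟨hwF m, hwR m⟩)
      (by
        intro x hx
        obtain ⟨m, hm', rfl⟩ := Finset.mem_image.1 hx
        exact (Finset.mem_filter.1 hm').2)
    rw [Finset.card_image_of_injective _ hwinj] at h1
    have h2 : ∑ m, ({ω | T (w m) (u ω) ∈ B} : Set Ω).indicator (fun _ => (1 : ℝ)) ω =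
        ((Finset.univ.filter fun m => T (w m) (u ω) ∈ B).card : ℝ) := by
      rw [Finset.card_filter]
      push_cast
      refine Finset.sum_congr rfl fun m _ => ?_
      by_cases h : T (w m) (u ω) ∈ B
      · rw [if_pos h, Set.indicator_of_mem (by exact h)]
      · rw [if_neg h, Set.indicator_of_notMem (by exact h)]
    rw [h2]
    refine h1.trans (le_of_eq ?_)
    rw [mul_pow]
    have : C ^ k ≠ 0 := by positivity
    field_simp
  have hmeas : ∀ m, MeasurableSet {ω | T (w m) (u ω) ∈ B} := fun m =>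
    ((measurable_T (w m)).comp hm) hB
  have hint : ∀ m, Integrable
      (({ω | T (w m) (u ω) ∈ B} : Set Ω).indicator (fun _ => (1 : ℝ))) P := fun m =>
    (integrable_const (1 : ℝ)).indicator (hmeas m)
  have h1 : ∫ ω, ∑ m, ({ω | T (w m) (u ω) ∈ B} : Set Ω).indicator (fun _ => (1 : ℝ)) ω ∂P ≤
      ∫ _ω, ε * (N : ℝ) ^ k ∂P :=
    integral_mono_ae (integrable_finsetSum _ fun m _ => hint m) (integrable_const _) hcard
  rw [integral_finsetSum _ fun m _ => hint m] at h1
  have h2 : ∀ m, ∫ ω, ({ω | T (w m) (u ω) ∈ B} : Set Ω).indicator (fun _ => (1 : ℝ)) ω ∂P = p := by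
    intro m
    rw [integral_indicator_const _ (hmeas m), smul_eq_mul, mul_one]
    exact prob_eq (hwG m) hB
  simp only [h2, Finset.sum_const, Finset.card_univ, Fintype.card_pi, Fintype.card_fin,
    Finset.prod_const, nsmul_eq_mul, integral_const, smul_eq_mul, probReal_univ,
    one_mul, Nat.cast_pow] at h1
  have h3 : 0 < (N : ℝ) ^ k := by positivity
  nlinarith

/-- A random function which is increasing in the direction of `e` does not have a law which is
invariant under a lattice whose span contains `e`. -/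
theorem not_mem_span {n k : ℕ} {Ω : Type} [MeasurableSpace Ω] {P : Measure Ω}
    [IsProbabilityMeasure P] {u : Ω → E n → ℝ} {hm : Measurable u} {v : Fin k → E n}
    (hG : ∀ i, v i ∈ G P u hm) {e : E n} (hcont : ∀ᵐ ω ∂P, Continuous (u ω))
    (hmono : ∀ᵐ ω ∂P, StrictMono fun t : ℝ => u ω (t • e)) :
    e ∉ Submodule.span ℝ (Set.range v) := by
  intro he
  have hev : ∀ x : E n, Measurable fun ω => u ω x := fun x => (measurable_pi_apply x).comp hm
  set h : E n → ℝ := fun x => ∫ ω, Real.arctan (u ω x) ∂P with hh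
  have hb : ∀ t : ℝ, ‖Real.arctan t‖ ≤ Real.pi / 2 := by
    intro t
    rw [Real.norm_eq_abs, abs_le]
    exact ⟨(Real.neg_pi_div_two_lt_arctan t).le, (Real.arctan_lt_pi_div_two t).le⟩
  have hint : ∀ x, Integrable (fun ω => Real.arctan (u ω x)) P := fun x =>
    Integrable.of_bound ((Real.continuous_arctan.measurable.comp (hev x)).aestronglyMeasurable)
      (Real.pi / 2) (Eventually.of_forall fun ω => hb _)
  set ρ : E n → ℝ := fun η => ∫ ω, |Real.arctan (u ω 0) - Real.arctan (u ω (-η))| ∂P with hρ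
  have hρ0 : Tendsto ρ (𝓝 0) (𝓝 0) := by
    have h1 : Tendsto ρ (𝓝 0) (𝓝 (∫ _ω, (0 : ℝ) ∂P)) := by
      refine tendsto_integral_filter_of_dominated_convergence (fun _ => Real.pi) ?_ ?_
        (integrable_const _) ?_
      · exact Eventually.of_forall fun η => (((hint 0).sub (hint (-η))).abs).aestronglyMeasurable
      · refine Eventually.of_forall fun η => Eventually.of_forall fun ω => ?_
        rw [Real.norm_eq_abs, abs_abs]
        have h2 := hb (u ω 0)
        have h3 := hb (u ω (-η))
        rw [Real.norm_eq_abs] at h2 h3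
        calc _ ≤ |Real.arctan (u ω 0)| + |Real.arctan (u ω (-η))| := abs_sub _ _
          _ ≤ Real.pi := by linarith
      · filter_upwards [hcont] with ω hω
        have h2 : Continuous fun η : E n => |Real.arctan (u ω 0) - Real.arctan (u ω (-η))| :=
          (continuous_const.sub (Real.continuous_arctan.comp (hω.comp continuous_neg))).abs
        have h3 := h2.tendsto 0
        simpa using h3
    simpa using h1
  have hlt : h 0 < h e := by
    have h1 : 0 < ∫ ω, (Real.arctan (u ω e) - Real.arctan (u ω 0)) ∂P := by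
      have hpos : ∀ᵐ ω ∂P, 0 < Real.arctan (u ω e) - Real.arctan (u ω 0) := by
        filter_upwards [hmono] with ω hω
        have h2 := hω (show (0 : ℝ) < 1 by norm_num)
        simp only [zero_smul, one_smul] at h2
        have := Real.arctan_strictMono h2
        linarith
      rw [integral_pos_iff_support_of_nonneg_ae (hpos.mono fun ω h => h.le)
        ((hint e).sub (hint 0))]
      have h3 : ∀ᵐ ω ∂P, ω ∈ Function.support
          fun ω => Real.arctan (u ω e) - Real.arctan (u ω 0) :=
        hpos.mono fun ω h => Function.mem_support.2 h.ne'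
      have h4 : P (Function.support
          fun ω => Real.arctan (u ω e) - Real.arctan (u ω 0)) = P Set.univ :=
        measure_congr (eventuallyEq_univ.2 h3)
      rw [h4, measure_univ]
      norm_num
    rw [integral_sub (hint e) (hint 0)] at h1
    linarith
  have hle : ∀ δ : ℝ, 0 < δ → h e ≤ h 0 + δ := by
    intro δ hδ
    obtain ⟨r, hr, hball⟩ := Metric.eventually_nhds_iff.1 (hρ0.eventually (gt_mem_nhds hδ))
    obtain ⟨m, hm1, z, hz⟩ := exists_return he hr
    set l : E n := ∑ i, (z i : ℝ) • v i with hl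
    have hlG : l ∈ G P u hm := sum_mem_G hG z
    set η : E n := l - (m : ℝ) • e with hη
    have h1 : ρ η < δ := hball (by rw [dist_zero_right]; exact hz)
    -- move by `l`
    have h2 : ∫ ω, |Real.arctan (u ω l) - Real.arctan (u ω (l - η))| ∂P = ρ η := by
      have h3 := integral_eq hlG (f := fun g : E n → ℝ =>
        |Real.arctan (g 0) - Real.arctan (g (-η))|) (by
          exact ((Real.continuous_arctan.measurable.comp (measurable_pi_apply _)).sub
            (Real.continuous_arctan.measurable.comp (measurable_pi_apply _))).abs)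
      simp only [T, zero_add, neg_add_eq_sub] at h3
      exact h3
    have h4 : h l = h 0 := by
      have h3 := integral_eq hlG (f := fun g : E n → ℝ => Real.arctan (g 0)) (by
          exact Real.continuous_arctan.measurable.comp (measurable_pi_apply _))
      simp only [T, zero_add] at h3
      exact h3
    have h5 : h (l - η) - h l ≤ ρ η := by
      rw [← h2, hh]
      change ∫ ω, Real.arctan (u ω (l - η)) ∂P - ∫ ω, Real.arctan (u ω l) ∂P ≤ _
      rw [← integral_sub (hint _) (hint _)]
      refine integral_mono_ae ((hint _).sub (hint _)) (((hint _).sub (hint _)).abs)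
        (Eventually.of_forall fun ω => ?_)
      change Real.arctan (u ω (l - η)) - Real.arctan (u ω l) ≤
        |Real.arctan (u ω l) - Real.arctan (u ω (l - η))|
      rw [abs_sub_comm]
      exact le_abs_self _
    have h6 : h e ≤ h (l - η) := by
      refine integral_mono_ae (hint _) (hint _) ?_
      filter_upwards [hmono] with ω hω
      have h7 : l - η = (m : ℝ) • e := by rw [hη]; abel
      have h8 := hω.monotone (show (1 : ℝ) ≤ m by exact_mod_cast hm1)
      simp only [one_smul] at h8
      rw [h7]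
      exact Real.arctan_strictMono.monotone h8
    linarith
  have := le_of_forall_pos_le_add hle
  linarith

end Pool.Agent.Helper70.DGL.Rand
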