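import Pool.Agent.Helper23.DGL.AE
import Pool.Agent.Helper23.DGL.BD
import Pool.Agent.Helper29.DGL.CH
import Pool.Agent.Helper29.DGL.TH
import Pool.Agent.Helper48.DGL.CL
import Pool.Agent.Helper48.DGL.SQ
import Pool.Agent.Helper59.DGL.A
import Pool.Agent.Helper59.DGL.EA
import Pool.Agent.Helper59.DGL.EP
import Pool.Agent.Helper59.DGL.FI
import Pool.Agent.Helper67.DGL.UR
import Pool.Agent.Helper69.DGL.LI
import Pool.Agent.Helper69.DGL.TA
import Pool.Agent.Helper69.DGL.FC
import Pool.Agent.Helper70.DGL.B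
import Pool.Agent.Helper70.DGL.Rand

/-!
# Project DGL (MP_800410_an, De Giorgi): random solutions with invariant law are planar
-/

set_option autoImplicit false

open MeasureTheory Filter Topology Module

namespace Pool.Agent.Helper70.DGL.Rand

open Pool.Agent.Helper70.DGL

theorem fi : S_FI := by
  have hTH := Pool.Agent.Helper29.DGL.s_TH
  have hCH := Pool.Agent.Helper29.DGL.s_CH
  have hFC := Pool.Agent.Helper69.DGL.s_FC
  have hSQ := Pool.Agent.Helper48.DGL.s_SQ
  have hCL := Pool.Agent.Helper48.DGL.s_CL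
  have hEA := Pool.Agent.Helper59.DGL.s_EA
  have hEP := Pool.Agent.Helper59.DGL.s_EP
  have hA := Pool.Agent.Helper59.DGL.s_A hTH hCH hFC hCL
  have hAE := Pool.Agent.Helper23.DGL.s_AE hA hCH hEA
  have hB := s_B hA hAE hEP hTH hFC hCL hCH
  have hBD := Pool.Agent.Helper23.DGL.s_BD hSQ
  exact Pool.Agent.Helper59.DGL.s_FI hB Pool.Agent.Helper69.DGL.s_TA hBD
    Pool.Agent.Helper67.DGL.s_UR

theorem strictMono_line {n : ℕ} {u : E n → ℝ} {e : E n} (hu : Differentiable ℝ u)
    (hpos : ∀ x, 0 < fderiv ℝ u x e) : StrictMono fun t : ℝ => u (t • e) := by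
  apply strictMono_of_deriv_pos
  intro t
  have h2 := (hasDerivAt_id t).smul_const e
  rw [one_smul] at h2
  have h3 := (hu (t • e)).hasFDerivAt.comp_hasDerivAt t h2
  have h4 : deriv (fun t : ℝ => u (t • e)) t = fderiv ℝ u (t • e) e := h3.deriv
  rw [h4]
  exact hpos _

/-- A random solution whose law is invariant under `n - 3` linearly independent translations is
almost surely planar. -/
theorem random {n k : ℕ} (hk : n ≤ k + 3) (e : E n) (v : Fin k → E n)
    (hv : LinearIndependent ℝ v) {Ω : Type} [MeasurableSpace Ω] (P : Measure Ω)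
    [IsProbabilityMeasure P] (u : Ω → E n → ℝ) (hm : Measurable u)
    (hsol : ∀ᵐ ω ∂P, Sol (u ω) ∧ ∀ x, 0 < fderiv ℝ (u ω) x e)
    (hinv : ∀ i, P.map (fun ω x => u ω (x + v i)) = P.map u) :
    ∀ᵐ ω ∂P, ∃ (a : E n) (c : ℝ), ‖a‖ = 1 ∧
      ∀ x, u ω x = Real.tanh ((inner ℝ a x - c) / √2) := by
  have hG : ∀ i, v i ∈ G P u hm := fun i => hinv i
  have hcont : ∀ᵐ ω ∂P, Continuous (u ω) := hsol.mono fun ω h => h.1.1.continuous
  have he : e ∉ Submodule.span ℝ (Set.range v) :=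
    not_mem_span hG hcont (hsol.mono fun ω h =>
      strictMono_line (h.1.1.differentiable two_ne_zero) h.2)
  have hfin : finrank ℝ (Submodule.span ℝ (Set.range v)) = k := by
    rw [finrank_span_eq_card hv, Fintype.card_fin]
  have key : ∀ j : ℕ, ∀ᵐ ω ∂P, ∃ (a : E n) (c : ℝ), ‖a‖ = 1 ∧
      ∀ x, ‖x‖ ≤ (j : ℝ) → |u ω x - Real.tanh ((inner ℝ a x - c) / √2)| ≤ 1 / ((j : ℝ) + 1) := by
    intro j
    have hδ : (0 : ℝ) < 1 / ((j : ℝ) + 1) := by positivity
    obtain ⟨B, hB, h1, h2⟩ := exists_event (n := n) (j : ℝ) (1 / ((j : ℝ) + 1)) hδ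
    have h3 : P.real {ω | u ω ∈ Bᶜ} = 0 := by
      refine prob_zero hv hG hB.compl fun ε hε => ?_
      obtain ⟨R₀, hR₀⟩ := fi n (Submodule.span ℝ (Set.range v)) (by rw [hfin]; exact hk) e he
        (j : ℝ) (1 / ((j : ℝ) + 1) / 2) ε (by positivity) hε
      refine ⟨R₀, fun R hR => ?_⟩
      filter_upwards [hsol] with ω hω S hS1 hS2 hS3
      have h4 := hR₀ R hR (u ω) hω.1 hω.2 0 S hS1
        (fun x hx => by rw [sub_zero]; exact hS2 x hx) (by
          rintro x hx ⟨a, c, ha, hac⟩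
          refine hS3 x hx (h1 _ a (c - inner ℝ a x) ha fun y hy => ?_)
          have h5 := hac (y + x) (by rwa [add_sub_cancel_right])
          have h6 : (inner ℝ a y - (c - inner ℝ a x) : ℝ) = inner ℝ a (y + x) - c := by
            rw [inner_add_right]
            ring
          rw [h6]
          exact h5)
      rwa [hfin] at h4
    have h4 : P {ω | u ω ∈ Bᶜ} = 0 := (measureReal_eq_zero_iff).1 h3
    have h5 : ∀ᵐ ω ∂P, u ω ∈ B := by
      rw [ae_iff]
      exact h4
    filter_upwards [h5, hcont] with ω h6 h7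
    exact h2 _ h6 h7
  rw [← ae_all_iff] at key
  filter_upwards [key, hsol] with ω h1 h2
  refine Pool.Agent.Helper69.DGL.s_LI (Fin n) (u ω) e (h2.1.1.differentiable two_ne_zero) h2.2
    fun r δ hδ => ?_
  obtain ⟨j, hj⟩ := exists_nat_ge (max r (1 / δ))
  obtain ⟨a, c, ha, hac⟩ := h1 j
  refine ⟨a, c, ha, fun x hx => ?_⟩
  rw [sub_zero] at hx
  refine (hac x (hx.trans ((le_max_left _ _).trans hj))).trans ?_
  have hj2 : 1 / δ ≤ (j : ℝ) := (le_max_right _ _).trans hj
  rw [div_le_iff₀ (by positivity)]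
  rw [div_le_iff₀ hδ] at hj2
  nlinarith

end Pool.Agent.Helper70.DGL.Rand
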