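import Pool.Agent.Helper70.DGL.Fr
import Pool.Agent.Helper68.DG.A5b
import Pool.Agent.Helper68.DG.A6a
import Pool.Agent.Helper68.DG.A6b

/-! Project DGL: translates, products -/

set_option autoImplicit false

open MeasureTheory Metric Set Filter Topology
open scoped ContDiff

namespace Pool.Agent.Helper70.DGL

open Pool.Agent.Helper68.DG

variable {ι : Type} [Fintype ι]

theorem gs_tr {K : ℝ} {u : V ι → ℝ} (hu : GS K u) (a : V ι) : GS K (tr a u) := by
  have h1 : ∀ x, fderiv ℝ (fun x => u (x + a)) x = fderiv ℝ u (x + a) := fun x =>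
    fderiv_comp_add_right a
  have h1' : fderiv ℝ (fun x => u (x + a)) = fun x => fderiv ℝ u (x + a) := funext h1
  have h2 : ∀ x, fderiv ℝ (fun x => fderiv ℝ u (x + a)) x = fderiv ℝ (fderiv ℝ u) (x + a) :=
    fun x => fderiv_comp_add_right a
  unfold tr
  refine ⟨hu.smooth.comp (contDiff_id.add contDiff_const), fun x => ?_, fun x => hu.bdd _,
    fun x => ?_, fun x y => ?_, fun x y => ?_⟩
  · rw [lap_translate]; exact hu.eqn _
  · rw [h1]; exact hu.bdd1 _
  · rw [h1, h1]
    have := hu.lip1 (x + a) (y + a)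
    rwa [add_sub_add_right_eq_sub] at this
  · rw [h1', h2, h2]
    have := hu.lip2 (x + a) (y + a)
    rwa [add_sub_add_right_eq_sub] at this

theorem fderiv_tr (u : V ι → ℝ) (v x : V ι) : fderiv ℝ (tr v u) x = fderiv ℝ u (x + v) :=
  fderiv_comp_add_right v

theorem gd_tr (u w : V ι → ℝ) (v x : V ι) : gd (tr v u) (tr v w) x = gd u w (x + v) := by
  unfold gd tr
  simp only [pd_translate]

theorem lap_tr (u : V ι → ℝ) (v x : V ι) : lap (tr v u) x = lap u (x + v) := lap_translate u v x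

theorem t1_tr {ζ : V ι → ℝ} (hζ : T1 ζ) (v : V ι) : T1 (tr v ζ) := a5b_T1_translate hζ v

theorem stab_tr {u : V ι → ℝ} (hst : Stab u) (v : V ι) : Stab (tr v u) := by
  intro ζ hζ
  have h1 := hst _ (t1_tr hζ (-v))
  have h2 : ∫ x, cc (tr v u) x * ζ x ^ 2 = ∫ x, cc u x * tr (-v) ζ x ^ 2 := by
    rw [← integral_add_right_eq_self (fun x => cc u x * tr (-v) ζ x ^ 2) v]
    simp only [tr, add_neg_cancel_right]
    rfl
  have h3 : ∫ x, gd ζ ζ x = ∫ x, gd (tr (-v) ζ) (tr (-v) ζ) x := by
    rw [← integral_add_right_eq_self (gd (tr (-v) ζ) (tr (-v) ζ)) v]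
    simp only [gd_tr, add_neg_cancel_right]
  rw [h2, h3]
  exact h1

/-- the product of a test function of the coordinates `p` and a test function of the others -/
theorem t1_prod (p : ι → Prop) [DecidablePred p] {f : V {i // p i} → ℝ} {g : V {i // ¬ p i} → ℝ}
    (hf : T1 f) (hg : T1 g) : T1 fun x => f (prj p x) * g (prj (fun i => ¬ p i) x) :=
  ⟨(hf.1.comp (prj p).contDiff).mul (hg.1.comp (prj (fun i => ¬ p i)).contDiff),
    a6b_cs p hf.2 hg.2⟩

theorem en_nonneg (u : V ι → ℝ) (x : V ι) : 0 ≤ en u x := by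
  unfold en
  have := gd_self_nonneg u x
  positivity

theorem gd_le_en (u : V ι → ℝ) (x : V ι) : gd u u x ≤ 2 * en u x := by
  unfold en
  have := sq_nonneg (1 - u x ^ 2)
  linarith

theorem continuous_en {u : V ι → ℝ} (hu : ContDiff ℝ 1 u) : Continuous (en u) := by
  unfold en
  have h1 := continuous_gd hu hu
  have := hu.continuous
  fun_prop

end Pool.Agent.Helper70.DGL
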